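import Pool.Agent.H271R3.RC7

/-! Failure of the error term in the ratios conjecture over the hyperelliptic ensemble. -/

set_option autoImplicit false

namespace Pool.Agent.Results.MP_dadd9c_nt.ErrorTermFails

open Polynomial Filter Topology

section Defs

variable {F : Type*} [Field F]

open Classical in
/-- the Legendre symbol `(D/P)`: `0` if `P` divides `D`, `1` if `D` is a square modulo `P`, and
`-1` otherwise -/
noncomputable def legendreSym (D P : F[X]) : ℤ :=
  if P ∣ D then 0 else if ∃ h : F[X], P ∣ h ^ 2 - D then 1 else -1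

open Classical in
/-- the Jacobi symbol `χ_D(f) = (D/f)`, the product of `(D/P)` over the monic irreducible factors
`P` of `f`, with multiplicity -/
noncomputable def jacobiSym (D f : F[X]) : ℤ :=
  ((UniqueFactorizationMonoid.normalizedFactors f).map (legendreSym D)).prod

/-- the monic polynomials of degree `n` -/
def monics (F : Type*) [Field F] (n : ℕ) : Set F[X] := {f | f.Monic ∧ f.natDegree = n}

/-- the ensemble `H_{2g+1}` of monic squarefree polynomials of degree `2g+1` -/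
def ensemble (F : Type*) [Field F] (g : ℕ) : Set F[X] :=
  {D | D.Monic ∧ Squarefree D ∧ D.natDegree = 2 * g + 1}

variable [Fintype F]

/-- `L(s, χ_D)`, the sum over monic `f` of `χ_D(f) |f|^{-s}`, grouped by degree -/
noncomputable def Lfun (D : F[X]) (s : ℂ) : ℂ :=
  ∑' n : ℕ, (∑ᶠ f ∈ monics F n, (jacobiSym D f : ℂ)) * (Fintype.card F : ℂ) ^ (-((n : ℂ) * s))

/-- the mean `R_g(α; β)` of `L(1/2+α, χ_D) / L(1/2+β, χ_D)` over the ensemble -/
noncomputable def ratioMean (F : Type*) [Field F] [Fintype F] (g : ℕ) (α β : ℂ) : ℂ :=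
  (∑ᶠ D ∈ ensemble F g, Lfun D (1 / 2 + α) * (Lfun D (1 / 2 + β))⁻¹) / ((ensemble F g).ncard : ℂ)

/-- the zeta function `ζ_q(s) = 1 / (1 - q^{1-s})` -/
noncomputable def zetaq (F : Type*) [Fintype F] (s : ℂ) : ℂ :=
  (1 - (Fintype.card F : ℂ) ^ (1 - s))⁻¹

/-- the norm `|P| = q^{deg P}` -/
noncomputable def nrm (P : F[X]) : ℂ := (Fintype.card F : ℂ) ^ P.natDegree

/-- the arithmetic factor `A(α; β)`, a product over monic irreducible `P` -/
noncomputable def Afac (F : Type*) [Field F] [Fintype F] (α β : ℂ) : ℂ :=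
  ∏' P : {P : F[X] // P.Monic ∧ Irreducible P},
    (1 - nrm P.1 ^ (-1 - 2 * α) * (nrm P.1 + 1)⁻¹ - nrm P.1 ^ (-α - β) * (nrm P.1 + 1)⁻¹) /
      (1 - nrm P.1 ^ (-1 - α - β))

/-- the two main terms of the ratios conjecture -/
noncomputable def mainTerms (F : Type*) [Field F] [Fintype F] (g : ℕ) (α β : ℂ) : ℂ :=
  Afac F α β * (zetaq F (1 + 2 * α) / zetaq F (1 + α + β)) +
    (Fintype.card F : ℂ) ^ (-(2 * (g : ℂ) * α)) *
      (Afac F (-α) β * (zetaq F (1 - 2 * α) / zetaq F (1 - α + β)))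

/-- the range of shifts, with implied constants `c` (for the lower bound of the real part of `β`)
and `C` (for the bound of the imaginary parts) -/
def InRange (F : Type*) [Fintype F] (ε c C : ℝ) (g : ℕ) (α β : ℂ) : Prop :=
  |α.re| < 1 / 4 ∧ c * (Fintype.card F : ℝ) ^ (-(2 * (g : ℝ)) - 1) ≤ β.re ∧ β.re < 1 / 4 ∧
    |α.im| ≤ C * (Fintype.card F : ℝ) ^ (2 * (g : ℝ) * (g + 1) * (1 - ε)) ∧
    |β.im| ≤ C * (Fintype.card F : ℝ) ^ (2 * (g : ℝ) * (g + 1) * (1 - ε))

end Defs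

section Factors

variable {F : Type*} [Field F]

theorem jacobi_factors (D : F[X]) {f : F[X]} (hf : f.Monic) :
    ∃ s : Multiset F[X], jacobiSym D f = (s.map (legendreSym D)).prod ∧
      (∀ P ∈ s, P.Monic ∧ Irreducible P) ∧ Associated s.prod f := by
  classical
  refine ⟨_, rfl, ?_, UniqueFactorizationMonoid.prod_normalizedFactors hf.ne_zero⟩
  intro P hP
  have h2 := UniqueFactorizationMonoid.irreducible_of_normalized_factor P hP
  refine ⟨?_, h2⟩
  have h3 := UniqueFactorizationMonoid.normalize_normalized_factor P hP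
  rw [← h3]
  exact Polynomial.monic_normalize h2.ne_zero

end Factors

section Bridge

open Pool.Agent.H271R3.RC Pool.Agent.H341R2.Sharp Finset

variable {F : Type*} [Field F] [Fintype F] [DecidableEq F]

theorem legendre_eq (hF : ringChar F ≠ 2) (D : F[X]) {P : F[X]} (hP : P.Monic) (hPi : Irreducible P) :
    legendreSym D P = lam D P := by
  classical
  have : Fact (Irreducible P) := ⟨hPi⟩
  have : Finite (AdjoinRoot P) := finite_AR hP
  let _ : Fintype (AdjoinRoot P) := Fintype.ofFinite _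
  have h1 := qc_aeval (E := AdjoinRoot P) hF D (AdjoinRoot.root P)
  have h2 : minpoly F (AdjoinRoot.root P) = P := by
    rw [AdjoinRoot.minpoly_root hP.ne_zero, hP.leadingCoeff, inv_one, C_1, mul_one]
  have h3 : Module.finrank F (AdjoinRoot P) = P.natDegree := by
    rw [(AdjoinRoot.powerBasis hP.ne_zero).finrank, AdjoinRoot.powerBasis_dim]
  rw [h2, h3, Nat.div_self hPi.natDegree_pos, pow_one, AdjoinRoot.aeval_eq] at h1
  rw [← h1]
  unfold legendreSym
  split_ifs with h4 h5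
  · rw [AdjoinRoot.mk_eq_zero.2 h4]
    simp
  · have h6 : AdjoinRoot.mk P D ≠ 0 := fun h => h4 (AdjoinRoot.mk_eq_zero.1 h)
    symm
    rw [quadraticChar_one_iff_isSquare h6]
    obtain ⟨h, hh⟩ := h5
    refine ⟨AdjoinRoot.mk P h, ?_⟩
    rw [← map_mul, ← sub_eq_zero, ← map_sub, AdjoinRoot.mk_eq_zero]
    rw [← dvd_neg]
    convert hh using 1
    ring
  · symm
    rw [quadraticChar_neg_one_iff_not_isSquare]
    rintro ⟨b, hb⟩
    obtain ⟨h, rfl⟩ := AdjoinRoot.mk_surjective b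
    apply h5
    refine ⟨h, ?_⟩
    rw [← AdjoinRoot.mk_eq_zero, map_sub, map_pow, hb]
    ring

theorem jacobi_eq (hF : ringChar F ≠ 2) (D : F[X]) {f : F[X]} (hf : f.Monic) :
    jacobiSym D f = lam D f := by
  have key : ∀ s : Multiset F[X], (∀ P ∈ s, P.Monic ∧ Irreducible P) →
      s.prod.Monic ∧ lam D s.prod = (s.map (legendreSym D)).prod := by
    intro s
    induction s using Multiset.induction_on with
    | empty => intro _; simp [lam_one, monic_one]
    | cons a t ih =>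
      intro hs
      obtain ⟨h1, h2⟩ := ih (fun P hP => hs P (Multiset.mem_cons_of_mem hP))
      obtain ⟨h3, h4⟩ := hs a (Multiset.mem_cons_self a t)
      rw [Multiset.prod_cons, Multiset.map_cons, Multiset.prod_cons]
      exact ⟨h3.mul h1, by rw [lam_mul D _ _ h3 h1, h2, legendre_eq hF D h3 h4]⟩
  obtain ⟨s, hs1, hs2, hs3⟩ := jacobi_factors D hf
  obtain ⟨h1, h2⟩ := key s hs2
  rw [hs1, ← h2]
  congr 1
  exact Polynomial.eq_of_monic_of_associated h1 hf hs3

theorem finsum_monics (hF : ringChar F ≠ 2) (D : F[X]) (n : ℕ) :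
    ∑ᶠ f ∈ monics F n, (jacobiSym D f : ℂ) = (A D n : ℂ) := by
  have h1 : monics F n = ((Mon F n : Finset F[X]) : Set F[X]) := by
    ext f
    rw [mem_coe, mem_Mon]
    rfl
  rw [h1, finsum_mem_coe_finset]
  unfold A
  push_cast
  apply sum_congr rfl
  intro f hf
  rw [jacobi_eq hF D (mem_Mon.1 hf).1]

theorem sr_eq (hq : 2 ≤ Fintype.card F) :
    (Fintype.card F : ℂ) ^ (-(1 / 2) : ℂ) = ((sr F : ℝ) : ℂ) := by
  unfold sr
  rw [Real.sqrt_eq_rpow, ← Real.rpow_neg (by positivity), Complex.ofReal_cpow (by positivity)]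
  push_cast
  rfl

theorem Lfun_eq (hF : ringChar F ≠ 2) (hq : 2 ≤ Fintype.card F) {D : F[X]} {g : ℕ}
    (hD : D ∈ Hs F (2 * g + 1)) (α : ℂ) :
    Lfun D (1 / 2 + α) = (Lp D).eval ((Fintype.card F : ℂ) ^ (-α)) := by
  obtain ⟨h1, h2, h3⟩ := mem_Hs.1 hD
  have hq0 : (Fintype.card F : ℂ) ≠ 0 := by
    have : Fintype.card F ≠ 0 := by omega
    exact_mod_cast this
  unfold Lfun
  simp_rw [finsum_monics hF]
  have h4 : ∀ n : ℕ, (A D n : ℂ) * (Fintype.card F : ℂ) ^ (-((n : ℂ) * (1 / 2 + α))) =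
      (A D n : ℂ) * ((sr F : ℝ) : ℂ) ^ n * ((Fintype.card F : ℂ) ^ (-α)) ^ n := by
    intro n
    rw [show -((n : ℂ) * (1 / 2 + α)) = (n : ℂ) * (-(1 / 2) + -α) by ring,
      Complex.cpow_nat_mul, Complex.cpow_add _ _ hq0, mul_pow, sr_eq hq, mul_assoc]
  rw [tsum_congr h4, tsum_eq_sum (s := range D.natDegree)]
  · rw [Lp, eval_finsetSum]
    apply sum_congr rfl
    intro n _
    rw [eval_mul, eval_C, eval_pow, eval_X]
  · intro n hn
    rw [mem_range] at hn
    rw [A_vanish hF h1 h3 (by omega) n (by omega)]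
    simp

theorem ratioMean_eq (hF : ringChar F ≠ 2) (hq : 2 ≤ Fintype.card F) (g : ℕ) (α β : ℂ) :
    ratioMean F g α β = RR F g ((Fintype.card F : ℂ) ^ (-α)) ((Fintype.card F : ℂ) ^ (-β)) := by
  have h1 : ensemble F g = ((Hs F (2 * g + 1) : Finset F[X]) : Set F[X]) := by
    ext f
    rw [mem_coe, mem_Hs]
    unfold ensemble
    rw [Set.mem_setOf_eq]
    tauto
  unfold ratioMean RR
  rw [h1, finsum_mem_coe_finset, Set.ncard_coe_finset]
  congr 1
  apply sum_congr rfl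
  intro D hD
  rw [Lfun_eq hF hq hD, Lfun_eq hF hq hD]

end Bridge

/-- **The error term of the ratios conjecture fails.** -/
theorem result (F : Type*) [Field F] [Fintype F] (hF : ringChar F ≠ 2) (ε a δ c C : ℝ)
    (hε : 0 < ε) (hδ : 0 < δ) (ha : ε + 2 * δ < a) (ha' : a < 1 / 4) (hc : 0 < c) (hC : 0 < C) :
    ¬ ∃ (K : ℝ) (g₀ : ℕ), ∀ g : ℕ, g₀ ≤ g → ∀ α β : ℂ, InRange F ε c C g α β →
      α.re = -a → β.re = δ →
      ‖ratioMean F g α β - mainTerms F g α β‖ ≤
        K * (Fintype.card F : ℝ) ^ ((ε - 1) * (g : ℝ) - 1 / 2) := by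
  classical
  rintro ⟨K, g₀, h⟩
  have hq2 : 2 ≤ Fintype.card F := Fintype.one_lt_card
  have hq : 3 ≤ Fintype.card F := by
    rcases Nat.lt_or_ge 2 (Fintype.card F) with h1 | h1
    · exact h1
    · exfalso
      apply hF
      have h2 : Fintype.card F = 2 := le_antisymm h1 hq2
      have h3 : (2 : F) = 0 := by
        have := FiniteField.cast_card_eq_zero F
        rw [h2] at this
        exact_mod_cast this
      have h4 : ringChar F ∣ 2 := by
        rw [← ringChar.spec]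
        exact_mod_cast h3
      have h5 : (ringChar F).Prime := CharP.char_is_prime F _
      exact (Nat.prime_dvd_prime_iff_eq h5 Nat.prime_two).1 h4
  set q : ℝ := (Fintype.card F : ℝ) with hqdef
  have hq3 : (3 : ℝ) ≤ q := by rw [hqdef]; exact_mod_cast hq
  have hq0 : 0 < q := by linarith
  have hq1 : 1 < q := by linarith
  have hqC : (Fintype.card F : ℂ) = ((q : ℝ) : ℂ) := by rw [hqdef]; push_cast; rfl
  have hlogq : 0 < Real.log q := Real.log_pos hq1
  -- the range condition holds for all large `g`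
  have hlarge1 : ∀ᶠ g : ℕ in atTop, c * q ^ (-(2 * (g : ℝ)) - 1) ≤ δ := by
    have h1 : Tendsto (fun g : ℕ => c * q⁻¹ * ((q⁻¹) ^ 2) ^ g) atTop (𝓝 (c * q⁻¹ * 0)) := by
      apply Tendsto.const_mul
      apply tendsto_pow_atTop_nhds_zero_of_lt_one (by positivity)
      have : q⁻¹ < 1 := inv_lt_one_of_one_lt₀ hq1
      have h0 : 0 < q⁻¹ := by positivity
      nlinarith
    rw [mul_zero] at h1
    filter_upwards [h1.eventually (gt_mem_nhds hδ)] with g hg
    have e : q ^ (-(2 * (g : ℝ)) - 1) = q⁻¹ * ((q⁻¹) ^ 2) ^ g := by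
      rw [← pow_mul, show -(2 * (g : ℝ)) - 1 = -((2 * g + 1 : ℕ) : ℝ) by push_cast; ring,
        Real.rpow_neg hq0.le, Real.rpow_natCast, pow_succ, mul_inv, inv_pow, mul_comm]
    rw [e, ← mul_assoc]
    exact hg.le
  have hlarge2 : ∀ᶠ g : ℕ in atTop, Real.pi / Real.log q ≤ C * q ^ (2 * (g : ℝ) * (g + 1) * (1 - ε)) := by
    have h1 : Tendsto (fun g : ℕ => C * q ^ g) atTop atTop :=
      (tendsto_pow_atTop_atTop_of_one_lt hq1).const_mul_atTop hC
    filter_upwards [h1.eventually_ge_atTop (Real.pi / Real.log q)] with g hg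
    refine hg.trans ?_
    apply mul_le_mul_of_nonneg_left _ hC.le
    rw [← Real.rpow_natCast]
    apply Real.rpow_le_rpow_of_exponent_le hq1.le
    have hg0 : (0 : ℝ) ≤ g := Nat.cast_nonneg g
    have h2 : (3 : ℝ) / 4 ≤ 1 - ε := by linarith
    have h3 : (g : ℝ) * 1 ≤ 2 * (g : ℝ) * (g + 1) * (3 / 4) := by nlinarith
    calc (g : ℝ) = g * 1 := (mul_one _).symm
      _ ≤ 2 * (g : ℝ) * (g + 1) * (3 / 4) := h3
      _ ≤ _ := mul_le_mul_of_nonneg_left h2 (by positivity)
  obtain ⟨G, hG⟩ := eventually_atTop.1 (hlarge1.and hlarge2)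
  -- the shift attached to a point
  have hpt : ∀ (z : ℂ) (b : ℝ), ‖z‖ = q ^ b → ∃ α : ℂ, α.re = -b ∧ |α.im| ≤ Real.pi / Real.log q ∧
      (Fintype.card F : ℂ) ^ (-α) = z := by
    intro z b hz
    have hz0 : z ≠ 0 := by
      rintro rfl
      rw [norm_zero] at hz
      have := Real.rpow_pos_of_pos hq0 b
      linarith
    have hlogC : Complex.log (q : ℂ) = ((Real.log q : ℝ) : ℂ) := (Complex.ofReal_log hq0.le).symm
    refine ⟨-(Complex.log z / ((Real.log q : ℝ) : ℂ)), ?_, ?_, ?_⟩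
    · rw [Complex.neg_re, Complex.div_ofReal_re, Complex.log_re, hz, Real.log_rpow hq0]
      field_simp
    · rw [Complex.neg_im, abs_neg, Complex.div_ofReal_im, abs_div, abs_of_pos hlogq, Complex.log_im]
      exact div_le_div_of_nonneg_right (Complex.abs_arg_le_pi z) hlogq.le
    · rw [neg_neg, hqC, Complex.cpow_def_of_ne_zero (by exact_mod_cast hq0.ne'), hlogC]
      rw [mul_div_cancel₀]
      · exact Complex.exp_log hz0
      · exact_mod_cast hlogq.ne'
  set ρ : ℝ := q ^ a with hρ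
  have hρ0 : 0 < ρ := Real.rpow_pos_of_pos hq0 _
  have hqh : 0 < q ^ (-(1 / 2) : ℝ) := Real.rpow_pos_of_pos hq0 _
  refine Pool.Agent.H271R3.RC.core hF hq (a := a) (δ := δ) (ε := ε)
    (K := |K| * (1 + (1 + ρ ^ 2) + ρ ^ 2)) hδ (by linarith) ha (max g₀ G) ?_
  intro g hg x y hx hy
  have hg₀ : g₀ ≤ g := (le_max_left _ _).trans hg
  have hgG : G ≤ g := (le_max_right _ _).trans hg
  rw [← hqdef] at hx hy ⊢
  obtain ⟨α, hα1, hα2, hα3⟩ := hpt x a hx
  obtain ⟨β, hβ1, hβ2, hβ3⟩ := hpt y (-δ) hy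
  rw [neg_neg] at hβ1
  have hE : ∀ g' : ℕ, g ≤ g' → ‖Pool.Agent.H271R3.RC.RR F g' x y - mainTerms F g' α β‖ ≤
      |K| * q ^ ((ε - 1) * (g : ℝ)) := by
    intro g' hg'
    obtain ⟨r1, r2⟩ := hG g' (hgG.trans hg')
    have h1 := h g' (hg₀.trans hg') α β ⟨by rw [hα1, abs_neg, abs_of_pos (by linarith)]; exact ha',
      by rw [hβ1]; exact r1, by rw [hβ1]; linarith, hα2.trans r2, hβ2.trans r2⟩ hα1 hβ1
    rw [ratioMean_eq hF hq2, hα3, hβ3] at h1
    refine h1.trans ?_
    have h2 : q ^ ((ε - 1) * (g' : ℝ) - 1 / 2) ≤ q ^ ((ε - 1) * (g : ℝ)) := by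
      apply Real.rpow_le_rpow_of_exponent_le hq1.le
      have h3 : (g : ℝ) ≤ g' := by exact_mod_cast hg'
      have h4 : ε - 1 < 0 := by linarith
      nlinarith
    have h5 : 0 < q ^ ((ε - 1) * (g' : ℝ) - 1 / 2) := Real.rpow_pos_of_pos hq0 _
    calc _ ≤ |K| * q ^ ((ε - 1) * (g' : ℝ) - 1 / 2) :=
          mul_le_mul_of_nonneg_right (le_abs_self K) h5.le
      _ ≤ _ := mul_le_mul_of_nonneg_left h2 (abs_nonneg _)
  -- the main terms cancel
  have hmt : ∀ g' : ℕ, mainTerms F g' α β =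
      Afac F α β * (zetaq F (1 + 2 * α) / zetaq F (1 + α + β)) +
        x ^ (2 * g') * (Afac F (-α) β * (zetaq F (1 - 2 * α) / zetaq F (1 - α + β))) := by
    intro g'
    unfold mainTerms
    have : (Fintype.card F : ℂ) ^ (-(2 * (g' : ℂ) * α)) = x ^ (2 * g') := by
      rw [← hα3, ← Complex.cpow_nat_mul]
      congr 1
      push_cast
      ring
    rw [this]
  have hcancel : Pool.Agent.H271R3.RC.RR F (g + 2) x y -
      (1 + x ^ 2) * Pool.Agent.H271R3.RC.RR F (g + 1) x y + x ^ 2 * Pool.Agent.H271R3.RC.RR F g x y =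
      (Pool.Agent.H271R3.RC.RR F (g + 2) x y - mainTerms F (g + 2) α β) -
      (1 + x ^ 2) * (Pool.Agent.H271R3.RC.RR F (g + 1) x y - mainTerms F (g + 1) α β) +
      x ^ 2 * (Pool.Agent.H271R3.RC.RR F g x y - mainTerms F g α β) := by
    rw [hmt, hmt, hmt]
    have e2 : x ^ (2 * (g + 2)) = x ^ (2 * g) * x ^ 4 := by rw [← pow_add]; congr 1
    have e1 : x ^ (2 * (g + 1)) = x ^ (2 * g) * x ^ 2 := by rw [← pow_add]; congr 1
    rw [e2, e1]
    ring
  rw [hcancel]
  have h2 := hE (g + 2) (by omega)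
  have h1 := hE (g + 1) (by omega)
  have h0 := hE g le_rfl
  have hx2 : ‖x ^ 2‖ = ρ ^ 2 := by rw [norm_pow, hx]
  have hx3 : ‖1 + x ^ 2‖ ≤ 1 + ρ ^ 2 := by
    refine (norm_add_le _ _).trans ?_
    rw [norm_one, hx2]
  have hB : 0 ≤ |K| * q ^ ((ε - 1) * (g : ℝ)) := by
    have := Real.rpow_pos_of_pos hq0 ((ε - 1) * (g : ℝ))
    positivity
  calc _ ≤ ‖Pool.Agent.H271R3.RC.RR F (g + 2) x y - mainTerms F (g + 2) α β‖ +
        ‖(1 + x ^ 2) * (Pool.Agent.H271R3.RC.RR F (g + 1) x y - mainTerms F (g + 1) α β)‖ +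
        ‖x ^ 2 * (Pool.Agent.H271R3.RC.RR F g x y - mainTerms F g α β)‖ := by
        refine (norm_add_le _ _).trans ?_
        exact add_le_add (norm_sub_le _ _) le_rfl
    _ ≤ |K| * q ^ ((ε - 1) * (g : ℝ)) + (1 + ρ ^ 2) * (|K| * q ^ ((ε - 1) * (g : ℝ))) +
        ρ ^ 2 * (|K| * q ^ ((ε - 1) * (g : ℝ))) := by
        rw [norm_mul, norm_mul, hx2]
        refine add_le_add (add_le_add h2 ?_) ?_
        · exact mul_le_mul hx3 h1 (norm_nonneg _) (by positivity)
        · exact mul_le_mul_of_nonneg_left h0 (by positivity)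
    _ = _ := by ring

end Pool.Agent.Results.MP_dadd9c_nt.ErrorTermFails
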